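import Mathlib

/-!
# A 3-letter 5-state bireversible automaton generating a finite group of order greater than (3!)^5
-/

set_option autoImplicit false

namespace Pool.Agent.Results.MP_965ec6_al.TooLarge

/-! ### Definitions -/

/-- an invertible Mealy automaton with states `Q` and alphabet `S` -/
structure Automaton (Q S : Type) where
  /-- the transition functions -/
  δ : S → Q → Q
  /-- the production functions -/
  ρ : Q → Equiv.Perm S

namespace Automaton

variable {Q S : Type} (M : Automaton Q S)

/-- the action of a state on the words -/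
def act : Q → List S → List S
  | _, [] => []
  | x, i :: w => M.ρ x i :: act (M.δ i x) w

/-- the inverse of the action of a state -/
def actInv : Q → List S → List S
  | _, [] => []
  | x, j :: w => (M.ρ x).symm j :: actInv (M.δ ((M.ρ x).symm j) x) w

lemma actInv_act (x : Q) (w : List S) : M.actInv x (M.act x w) = w := by
  induction w generalizing x with
  | nil => rfl
  | cons i w ih => simp [act, actInv, ih]

lemma act_actInv (x : Q) (w : List S) : M.act x (M.actInv x w) = w := by
  induction w generalizing x with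
  | nil => rfl
  | cons i w ih => simp [act, actInv, ih]

/-- the permutation of the words given by a state -/
def perm (x : Q) : Equiv.Perm (List S) := ⟨M.act x, M.actInv x, M.actInv_act x, M.act_actInv x⟩

/-- the group generated by the automaton -/
def group : Subgroup (Equiv.Perm (List S)) := Subgroup.closure (Set.range M.perm)

/-- The (invertible) automaton is bireversible. -/
def Bireversible : Prop :=
  (∀ i, Function.Bijective (M.δ i)) ∧ ∀ j, Function.Bijective (fun x => M.δ ((M.ρ x).symm j) x)

end Automaton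

/-! ### Sequences of permutations with period six -/

/-- six permutations of three letters -/
abbrev F : Type := Fin 6 → Equiv.Perm (Fin 3)

/-- the shift -/
def sh (f : F) : F := fun k => f (k + 1)

/-- the action on words: the letter number `n` is moved by `f (n mod 6)` -/
def ac : F → List (Fin 3) → List (Fin 3)
  | _, [] => []
  | f, i :: w => f 0 i :: ac (sh f) w

lemma ac_mul (f g : F) (w : List (Fin 3)) : ac (f * g) w = ac f (ac g w) := by
  induction w generalizing f g with
  | nil => rfl
  | cons i w ih =>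
    have : sh (f * g) = sh f * sh g := rfl
    simp only [ac, this, ih, Pi.mul_apply, Equiv.Perm.mul_apply]

lemma ac_one (w : List (Fin 3)) : ac 1 w = w := by
  induction w with
  | nil => rfl
  | cons i w ih =>
    have : sh 1 = 1 := rfl
    simp only [ac, this, ih, Pi.one_apply, Equiv.Perm.one_apply]

/-- the action as a homomorphism -/
def Phi : F →* Equiv.Perm (List (Fin 3)) where
  toFun f := ⟨ac f, ac f⁻¹, fun w => by rw [← ac_mul, inv_mul_cancel, ac_one],
    fun w => by rw [← ac_mul, mul_inv_cancel, ac_one]⟩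
  map_one' := by
    ext1 w
    exact ac_one w
  map_mul' f g := by
    ext1 w
    exact ac_mul f g w

lemma Phi_injective : Function.Injective Phi := by
  intro f g h
  funext k
  ext1 i
  have h1 : ac f [i, i, i, i, i, i] = ac g [i, i, i, i, i, i] := by
    have := congrArg (fun e : Equiv.Perm (List (Fin 3)) => e [i, i, i, i, i, i]) h
    exact this
  simp only [ac, sh, List.cons.injEq, and_true] at h1
  obtain ⟨h0, h1, h2, h3, h4, h5⟩ := h1
  fin_cases k
  · exact h0
  · exact h1
  · exact h2
  · exact h3
  · exact h4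
  · exact h5

/-! ### The automaton -/

/-- the transposition of `0` and `1` -/
def t : Equiv.Perm (Fin 3) := Equiv.swap 0 1

/-- the transposition of `1` and `2` -/
def u : Equiv.Perm (Fin 3) := Equiv.swap 1 2

/-- the permutation of the states -/
def nx : Fin 5 → Fin 5 := ![1, 0, 3, 4, 2]

/-- the production functions -/
def pr : Fin 5 → Equiv.Perm (Fin 3) := ![1, t, 1, t, u]

/-- the automaton -/
def M : Automaton (Fin 5) (Fin 3) where
  δ _ := nx
  ρ := pr

lemma bireversible : M.Bireversible := by
  have : Function.Bijective nx := by decide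
  exact ⟨fun _ => this, fun _ => this⟩

/-- the generators -/
def g (x : Fin 5) : F := fun k => pr (nx^[(k : ℕ)] x)

lemma sh_g : ∀ x, sh (g x) = g (nx x) := by
  decide +kernel

lemma perm_eq (x : Fin 5) : M.perm x = Phi (g x) := by
  ext1 w
  change M.act x w = ac (g x) w
  induction w generalizing x with
  | nil => rfl
  | cons i w ih =>
    simp only [Automaton.act, ac]
    rw [ih, sh_g]
    rfl

/-- the subgroup generated by the `g x` -/
def H : Subgroup F := Subgroup.closure (Set.range g)

lemma group_eq : M.group = H.map Phi := by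
  unfold Automaton.group H
  rw [MonoidHom.map_closure, ← Set.range_comp]
  congr 2
  funext x
  exact perm_eq x

/-- the equivalence between the group of the automaton and `H` -/
noncomputable def eqv : H ≃* M.group :=
  (H.equivMapOfInjective Phi Phi_injective).trans (MulEquiv.subgroupCongr group_eq.symm)

lemma g_mem (x : Fin 5) : g x ∈ H := Subgroup.subset_closure ⟨x, rfl⟩

/-- the commutators -/
def wd : Fin 6 → List (Fin 5) := ![[4, 1, 4, 1], [3, 0, 3, 0], [2, 1, 2, 1], [4, 0, 4, 0], [3, 1, 3, 1],
  [2, 0, 2, 0]]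

/-- a 3-cycle -/
def c : Equiv.Perm (Fin 3) := u * t * u * t

lemma wd_eq : ∀ k : Fin 6, ((wd k).map g).prod = Pi.mulSingle k c := by
  decide +kernel

lemma single_mem (k : Fin 6) : (Pi.mulSingle k c : F) ∈ H := by
  rw [← wd_eq]
  apply Subgroup.list_prod_mem
  intro x hx
  obtain ⟨y, -, rfl⟩ := List.mem_map.1 hx
  exact g_mem y

/-- the elements used for the lower bound -/
def el (p : (Fin 6 → Fin 3) × (Fin 4 → Fin 2)) : F :=
  (fun k => c ^ (p.1 k : ℕ)) * (g 0 ^ (p.2 0 : ℕ) * g 1 ^ (p.2 1 : ℕ) * g 2 ^ (p.2 2 : ℕ) * g 3 ^ (p.2 3 : ℕ))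

lemma el_mem (p : (Fin 6 → Fin 3) × (Fin 4 → Fin 2)) : el p ∈ H := by
  unfold el
  refine mul_mem (Subgroup.pi_mem_of_mulSingle_mem _ fun k => ?_)
    (mul_mem (mul_mem (mul_mem (pow_mem (g_mem _) _) (pow_mem (g_mem _) _)) (pow_mem (g_mem _) _))
      (pow_mem (g_mem _) _))
  rw [Pi.mulSingle_pow]
  exact pow_mem (single_mem k) _

lemma sign_c : Equiv.Perm.sign c = 1 := by decide

lemma sgn_inj : ∀ s s' : Fin 4 → Fin 2,
    (∀ k : Fin 6, Equiv.Perm.sign ((g 0 ^ (s 0 : ℕ) * g 1 ^ (s 1 : ℕ) * g 2 ^ (s 2 : ℕ) * g 3 ^ (s 3 : ℕ)) k) =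
      Equiv.Perm.sign ((g 0 ^ (s' 0 : ℕ) * g 1 ^ (s' 1 : ℕ) * g 2 ^ (s' 2 : ℕ) * g 3 ^ (s' 3 : ℕ)) k)) →
    s = s' := by
  decide +kernel

lemma c_inj : ∀ a b : Fin 3, c ^ (a : ℕ) = c ^ (b : ℕ) → a = b := by
  decide +kernel

lemma el_injective : Function.Injective el := by
  rintro ⟨v, s⟩ ⟨v', s'⟩ h
  have h1 : ∀ k : Fin 6, c ^ (v k : ℕ) *
      (g 0 ^ (s 0 : ℕ) * g 1 ^ (s 1 : ℕ) * g 2 ^ (s 2 : ℕ) * g 3 ^ (s 3 : ℕ)) k = c ^ (v' k : ℕ) *
      (g 0 ^ (s' 0 : ℕ) * g 1 ^ (s' 1 : ℕ) * g 2 ^ (s' 2 : ℕ) * g 3 ^ (s' 3 : ℕ)) k :=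
    fun k => congrFun h k
  have h2 : s = s' := by
    apply sgn_inj
    intro k
    have := congrArg Equiv.Perm.sign (h1 k)
    rw [map_mul, map_mul, map_pow, map_pow, sign_c, one_pow, one_pow, one_mul, one_mul] at this
    exact this
  subst h2
  have h3 : v = v' := by
    funext k
    exact c_inj _ _ (mul_right_cancel (h1 k))
  rw [h3]

lemma card_H : (Nat.factorial 3) ^ 5 < Nat.card H := by
  have h1 : Nat.card ((Fin 6 → Fin 3) × (Fin 4 → Fin 2)) ≤ Nat.card H :=
    Nat.card_le_card_of_injective (fun p => (⟨el p, el_mem p⟩ : H)) fun p q h =>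
      el_injective (congrArg Subtype.val h)
  have h2 : Nat.card ((Fin 6 → Fin 3) × (Fin 4 → Fin 2)) = 11664 := by
    rw [Nat.card_eq_fintype_card, Fintype.card_prod, Fintype.card_fun, Fintype.card_fun]
    norm_num
  have h3 : (Nat.factorial 3) ^ 5 = 7776 := by norm_num [Nat.factorial]
  omega

/-- **Theorem.** There is a 3-letter 5-state bireversible Mealy automaton whose group is finite of order greater
than `(3!)^5`. -/
theorem result : ∃ M : Automaton (Fin 5) (Fin 3), M.Bireversible ∧ Finite M.group ∧
    (Nat.factorial 3) ^ 5 < Nat.card M.group := by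
  refine ⟨M, bireversible, Finite.of_equiv H eqv.toEquiv, ?_⟩
  rw [← Nat.card_congr eqv.toEquiv]
  exact card_H

end Pool.Agent.Results.MP_965ec6_al.TooLarge
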